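import Pool.Agent.Lib.MP_ea1188_al.KG.Iface

/-! # [LFREE] the subgroup `L` is free on `t₁, t₂, t₃`; MP_ea1188_al, helper33. -/

set_option autoImplicit false

namespace KG.H33

/-- the free group of rank four as a set acted on. -/
abbrev F4 : Type := FreeGroup (Fin 4)

/-- inversion automorphism `x_i ↦ x_i⁻¹`. -/
def io : F4 →* F4 := FreeGroup.lift (fun i => (FreeGroup.of i)⁻¹)

/-- `(01)(23)`. -/
def sA : Fin 4 → Fin 4 := ![1, 0, 3, 2]
/-- `(13)`. -/
def sD : Fin 4 → Fin 4 := ![0, 3, 2, 1]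

/-- the automorphism of `a`. -/
def hA : F4 →* F4 := FreeGroup.map sA
/-- the automorphism of `d`. -/
def hD : F4 →* F4 := FreeGroup.map sD

lemma io_io (x : F4) : io (io x) = x := by
  have h : io.comp io = MonoidHom.id F4 := by
    ext i
    simp [io]
  exact DFunLike.congr_fun h x

lemma hA_hA (x : F4) : hA (hA x) = x := by
  have h : hA.comp hA = MonoidHom.id F4 := by
    ext i
    fin_cases i <;> simp [hA, sA]
  exact DFunLike.congr_fun h x

lemma hD_hD (x : F4) : hD (hD x) = x := by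
  have h : hD.comp hD = MonoidHom.id F4 := by
    ext i
    fin_cases i <;> simp [hD, sD]
  exact DFunLike.congr_fun h x

lemma io_hA (x : F4) : io (hA x) = hA (io x) := by
  have h : io.comp hA = hA.comp io := by
    ext i
    simp [hA, io]
  exact DFunLike.congr_fun h x

lemma io_hD (x : F4) : io (hD x) = hD (io x) := by
  have h : io.comp hD = hD.comp io := by
    ext i
    simp [hD, io]
  exact DFunLike.congr_fun h x

/-- permutation of `a`. -/
def PA : Equiv.Perm F4 := ⟨hA, hA, hA_hA, hA_hA⟩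
/-- permutation of `d`. -/
def PD : Equiv.Perm F4 := ⟨hD, hD, hD_hD, hD_hD⟩

lemma fB (x : F4) : FreeGroup.of 0 * io (FreeGroup.of 0 * io x) = x := by
  rw [map_mul, io_io]
  simp [io]

/-- permutation of `b`. -/
def PB : Equiv.Perm F4 :=
  ⟨fun x => FreeGroup.of 0 * io x, fun x => FreeGroup.of 0 * io x, fB, fB⟩

@[simp] lemma PA_apply (x : F4) : PA x = hA x := rfl
@[simp] lemma PD_apply (x : F4) : PD x = hD x := rfl
@[simp] lemma PB_apply (x : F4) : PB x = FreeGroup.of 0 * io x := rfl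

lemma PA_PA : PA * PA = 1 := Equiv.ext hA_hA
lemma PD_PD : PD * PD = 1 := Equiv.ext hD_hD
lemma PB_PB : PB * PB = 1 := Equiv.ext fB

lemma PBD : PB * PD * (PB * PD) = 1 := by
  refine Equiv.ext fun x => ?_
  show FreeGroup.of 0 * io (hD (FreeGroup.of 0 * io (hD x))) = x
  rw [map_mul, map_mul, io_hD (io (hD x)), io_io, hD_hD]
  simp [hD, sD, io]

lemma PAD : (PA * PD) ^ 4 = 1 := by
  refine Equiv.ext fun x => ?_
  have h : (hA.comp hD).comp ((hA.comp hD).comp ((hA.comp hD).comp (hA.comp hD))) =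
      MonoidHom.id F4 := by
    ext i
    fin_cases i <;> simp [hD, sD, hA, sA]
  exact DFunLike.congr_fun h x

/-- the representation of `Λ`. -/
def Phi : Lam →* Equiv.Perm F4 := lamLift PA PB PD PA_PA PB_PB PD_PD PBD PAD

@[simp] lemma Phi_la : Phi la = PA := by simp [Phi]
@[simp] lemma Phi_lb : Phi lb = PB := by simp [Phi]
@[simp] lemma Phi_ld : Phi ld = PD := by simp [Phi]

/-- `t_i ↦ x₀ x_i⁻¹`. -/
def ff : FreeGroup (Fin 3) →* F4 :=
  FreeGroup.lift (fun i => FreeGroup.of 0 * (FreeGroup.of i.succ)⁻¹)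

/-- `x₀ ↦ 1`, `x_i ↦ t_i⁻¹`. -/
def gg : F4 →* FreeGroup (Fin 3) :=
  FreeGroup.lift (Fin.cons 1 (fun i => (FreeGroup.of i)⁻¹))

lemma gg_ff (x : FreeGroup (Fin 3)) : gg (ff x) = x := by
  have h : gg.comp ff = MonoidHom.id _ := by
    ext i
    simp [gg, ff]
  exact DFunLike.congr_fun h x

/-- left multiplication. -/
def lm : F4 →* Equiv.Perm F4 := MulAction.toPermHom F4 F4

lemma lm_apply (x y : F4) : lm x y = x * y := rfl

lemma hA_of (i : Fin 4) : hA (FreeGroup.of i) = FreeGroup.of (sA i) := by simp [hA]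
lemma hD_of (i : Fin 4) : hD (FreeGroup.of i) = FreeGroup.of (sD i) := by simp [hD]
lemma io_of (i : Fin 4) : io (FreeGroup.of i) = (FreeGroup.of i)⁻¹ := by simp [io]

lemma key : Phi.comp jL = lm.comp ff := by
  ext i x
  show Phi (jL (FreeGroup.of i)) x = lm (ff (FreeGroup.of i)) x
  rw [lm_apply]
  fin_cases i
  · simp [mul_assoc, jL, ff, lt, hA_of, io_of, io_hA, io_io, hA_hA, sA]
  · simp [mul_assoc, jL, ff, lt, hA_of, hD_of, io_of, io_hA, io_hD, io_io, hA_hA, hD_hD, sA, sD]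
  · simp [mul_assoc, jL, ff, lt, hA_of, hD_of, io_of, io_hA, io_hD, io_io, hA_hA, hD_hD, sA, sD]

theorem lfree : LFreeS := by
  intro x y hxy
  have h : Phi (jL x) = Phi (jL y) := by rw [hxy]
  have h1 : Phi (jL x) = lm (ff x) := DFunLike.congr_fun key x
  have h2 : Phi (jL y) = lm (ff y) := DFunLike.congr_fun key y
  rw [h1, h2] at h
  have h3 : ff x = ff y := by
    have := congrArg (fun (e : Equiv.Perm F4) => e 1) h
    simpa [lm_apply] using this
  rw [← gg_ff x, ← gg_ff y, h3]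

end KG.H33
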