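import Pool.Agent.Lib.MP_ea1188_al.KG.Iface

/-! # [LNORM], [LBR]: the subgroup `L` is normal of index dividing `16`, and contains `L × 1`,
`1 × L` under `ψ`; MP_ea1188_al, helper33. -/

set_option autoImplicit false

namespace KG.H33

lemma aa (x : Lam) : la * (la * x) = x := by rw [← mul_assoc, la_la, one_mul]
lemma bb (x : Lam) : lb * (lb * x) = x := by rw [← mul_assoc, lb_lb, one_mul]
lemma dd (x : Lam) : ld * (ld * x) = x := by rw [← mul_assoc, ld_ld, one_mul]
lemma db (x : Lam) : ld * (lb * x) = lb * (ld * x) := by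
  rw [← mul_assoc, ← lb_ld, mul_assoc]
lemma db' : ld * lb = lb * ld := lb_ld.symm
lemma dada' : ld * (la * (ld * la)) = la * (ld * (la * ld)) := by
  have h := lad_pow
  have h0 : la * ld * (la * ld) * ((la * ld) * (la * ld)) = 1 := by
    rw [← h]; simp only [pow_succ, pow_zero, one_mul, mul_assoc]
  have h1 : ld * (la * (ld * la)) * (la * ld * (la * ld)) = 1 := by
    simp only [mul_assoc, aa, dd, ld_ld]
  calc ld * (la * (ld * la))
      = ld * (la * (ld * la)) * (la * ld * (la * ld) * ((la * ld) * (la * ld))) := by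
        rw [h0, mul_one]
    _ = (ld * (la * (ld * la)) * (la * ld * (la * ld))) * ((la * ld) * (la * ld)) := by
        simp only [mul_assoc]
    _ = la * (ld * (la * ld)) := by rw [h1, one_mul]; simp only [mul_assoc]
lemma dada (x : Lam) : ld * (la * (ld * (la * x))) = la * (ld * (la * (ld * x))) := by
  have h := congrArg (fun y => y * x) dada'
  simpa only [mul_assoc] using h

lemma la_inv : la⁻¹ = la := inv_eq_of_mul_eq_one_left la_la
lemma lb_inv : lb⁻¹ = lb := inv_eq_of_mul_eq_one_left lb_lb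
lemma ld_inv : ld⁻¹ = ld := inv_eq_of_mul_eq_one_left ld_ld

lemma lt0 : lt 0 = lb * (la * lb * la) := rfl
lemma lt1 : lt 1 = lb * (la * ld * la * lb * (la * ld * la)) := rfl
lemma lt2 : lt 2 = lb * (ld * (la * lb * la) * ld) := rfl

lemma lt_mem (i : Fin 3) : lt i ∈ LL := ⟨FreeGroup.of i, by simp [jL]⟩

lemma LL_closure : LL = Subgroup.closure (Set.range lt) := by
  apply le_antisymm
  · rintro _ ⟨x, rfl⟩
    induction x using FreeGroup.induction_on with
    | C1 => simp
    | of i => simpa [jL] using Subgroup.subset_closure (Set.mem_range_self i)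
    | inv_of i h => simpa using inv_mem h
    | mul x y hx hy => simpa using mul_mem hx hy
  · rw [Subgroup.closure_le]
    rintro _ ⟨i, rfl⟩
    exact lt_mem i

lemma conj_closure (N : Subgroup Lam) (g : Lam) (h : ∀ i, g * lt i * g⁻¹ ∈ N) (x : Lam)
    (hx : x ∈ LL) : g * x * g⁻¹ ∈ N := by
  rw [LL_closure] at hx
  induction hx using Subgroup.closure_induction with
  | mem x hx => obtain ⟨i, rfl⟩ := hx; exact h i
  | one => simp
  | mul x y _ _ hx hy => simpa [mul_assoc] using mul_mem hx hy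
  | inv x _ hx => simpa [mul_assoc] using inv_mem hx

lemma conj_a (x : Lam) (hx : x ∈ LL) : la * x * la⁻¹ ∈ LL := by
  apply conj_closure _ _ _ x hx
  intro i
  fin_cases i
  · have : la * lt 0 * la⁻¹ = (lt 0)⁻¹ := by
      simp only [lt0, mul_inv_rev, la_inv, lb_inv, mul_assoc, aa, la_la, mul_one]
    show la * lt 0 * la⁻¹ ∈ LL
    rw [this]
    exact inv_mem (lt_mem 0)
  · have : la * lt 1 * la⁻¹ = (lt 0)⁻¹ * lt 2 := by
      simp only [lt0, lt1, lt2, mul_inv_rev, la_inv, lb_inv, mul_assoc, aa, bb, dd, db, dada, dada',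
        la_la, mul_one]
    show la * lt 1 * la⁻¹ ∈ LL
    rw [this]
    exact mul_mem (inv_mem (lt_mem 0)) (lt_mem 2)
  · have : la * lt 2 * la⁻¹ = (lt 0)⁻¹ * lt 1 := by
      simp only [lt0, lt1, lt2, mul_inv_rev, la_inv, lb_inv, mul_assoc, aa, bb, dd, db, dada, dada',
        la_la, mul_one]
    show la * lt 2 * la⁻¹ ∈ LL
    rw [this]
    exact mul_mem (inv_mem (lt_mem 0)) (lt_mem 1)

lemma conj_b (x : Lam) (hx : x ∈ LL) : lb * x * lb⁻¹ ∈ LL := by
  apply conj_closure _ _ _ x hx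
  intro i
  have : lb * lt i * lb⁻¹ = (lt i)⁻¹ := by
    fin_cases i
    · show lb * lt 0 * lb⁻¹ = (lt 0)⁻¹
      simp only [lt0, mul_inv_rev, la_inv, lb_inv, mul_assoc, bb]
    · show lb * lt 1 * lb⁻¹ = (lt 1)⁻¹
      simp only [lt1, mul_inv_rev, la_inv, lb_inv, ld_inv, mul_assoc, bb]
    · show lb * lt 2 * lb⁻¹ = (lt 2)⁻¹
      simp only [lt2, mul_inv_rev, la_inv, lb_inv, ld_inv, mul_assoc, bb]
  rw [this]
  exact inv_mem (lt_mem i)

lemma conj_d (x : Lam) (hx : x ∈ LL) : ld * x * ld⁻¹ ∈ LL := by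
  apply conj_closure _ _ _ x hx
  intro i
  fin_cases i
  · have : ld * lt 0 * ld⁻¹ = lt 2 := by
      simp only [lt0, lt2, ld_inv, mul_assoc, db]
    show ld * lt 0 * ld⁻¹ ∈ LL
    rw [this]
    exact lt_mem 2
  · have : ld * lt 1 * ld⁻¹ = lt 1 := by
      simp only [lt1, ld_inv, mul_assoc, db, dada, ld_ld, mul_one]
    show ld * lt 1 * ld⁻¹ ∈ LL
    rw [this]
    exact lt_mem 1
  · have : ld * lt 2 * ld⁻¹ = lt 0 := by
      simp only [lt0, lt2, ld_inv, mul_assoc, db, dd, ld_ld, mul_one]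
    show ld * lt 2 * ld⁻¹ ∈ LL
    rw [this]
    exact lt_mem 0

/-- induction along left multiplication by the generators. -/
lemma lam_induction (p : Lam → Prop) (h1 : p 1) (ha : ∀ x, p x → p (la * x))
    (hb : ∀ x, p x → p (lb * x)) (hd : ∀ x, p x → p (ld * x)) (x : Lam) : p x := by
  suffices h : ∀ y, p y → p (x * y) by simpa using h 1 h1
  induction x using PresentedGroup.induction_on with
  | _ z =>
    induction z using FreeGroup.induction_on with
    | C1 => simp
    | of i =>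
      fin_cases i
      · exact fun y hy => ha y hy
      · exact fun y hy => hb y hy
      · exact fun y hy => hd y hy
    | inv_of i _ =>
      fin_cases i
      · intro y hy
        have h := ha y hy
        rw [← la_inv] at h
        exact h
      · intro y hy
        have h := hb y hy
        rw [← lb_inv] at h
        exact h
      · intro y hy
        have h := hd y hy
        rw [← ld_inv] at h
        exact h
    | mul u v hu hv =>
      intro y hy
      rw [map_mul, mul_assoc]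
      exact hu _ (hv y hy)

lemma LL_normal : LL.Normal := by
  constructor
  intro n hn g
  revert n
  induction g using lam_induction with
  | h1 => intro n hn; simpa using hn
  | ha x ih =>
    intro n hn
    simpa [mul_assoc] using conj_a _ (ih n hn)
  | hb x ih =>
    intro n hn
    simpa [mul_assoc] using conj_b _ (ih n hn)
  | hd x ih =>
    intro n hn
    simpa [mul_assoc] using conj_d _ (ih n hn)

/-- the map to the group of order `16`. -/
def th : Lam →* DihedralGroup 4 × Multiplicative (ZMod 2) :=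
  lamLift (DihedralGroup.sr 0, 1) (1, Multiplicative.ofAdd 1) (DihedralGroup.sr 1, 1)
    (by decide) (by decide) (by decide) (by decide) (by decide)

@[simp] lemma th_la : th la = (DihedralGroup.sr 0, 1) := by simp [th]
@[simp] lemma th_lb : th lb = (1, Multiplicative.ofAdd 1) := by simp [th]
@[simp] lemma th_ld : th ld = (DihedralGroup.sr 1, 1) := by simp [th]

lemma LL_le : LL ≤ th.ker := by
  rw [LL_closure, Subgroup.closure_le]
  rintro _ ⟨i, rfl⟩
  show th (lt i) = 1
  fin_cases i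
  · show th (lt 0) = 1
    simp only [lt0, map_mul, th_la, th_lb]
    decide
  · show th (lt 1) = 1
    simp only [lt1, map_mul, th_la, th_lb, th_ld]
    decide
  · show th (lt 2) = 1
    simp only [lt2, map_mul, th_la, th_lb, th_ld]
    decide

lemma ad3 : (la * ld) ^ 3 * la = ld := by
  have h : (la * ld) ^ 3 * (la * ld) = 1 := by rw [← pow_succ]; exact lad_pow
  calc (la * ld) ^ 3 * la = (la * ld) ^ 3 * (la * ld) * ld := by
        simp only [mul_assoc, ld_ld, mul_one]
    _ = ld := by rw [h, one_mul]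

lemma a_pow (i : ℕ) : la * (la * ld) ^ i = (la * ld) ^ (3 * i) * la := by
  induction i with
  | zero => simp
  | succ i ih =>
    rw [pow_succ, ← mul_assoc, ih, Nat.mul_succ, pow_add, mul_assoc, mul_assoc, ad3, aa]

/-- the words `b^e (ad)^i a^j`. -/
def nf (e i j : ℕ) : Lam := lb ^ e * ((la * ld) ^ i * la ^ j)

lemma nf_mod (e i j : ℕ) : nf e i j = nf (e % 2) (i % 4) (j % 2) := by
  have h1 : lb ^ e = lb ^ (e % 2) := pow_eq_pow_mod e (by rw [pow_two, lb_lb])
  have h2 : (la * ld) ^ i = (la * ld) ^ (i % 4) := pow_eq_pow_mod i lad_pow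
  have h3 : la ^ j = la ^ (j % 2) := pow_eq_pow_mod j (by rw [pow_two, la_la])
  rw [nf, nf, h1, h2, h3]

lemma a_nf (i j : ℕ) : la * ((la * ld) ^ i * la ^ j) = (la * ld) ^ (3 * i) * la ^ (j + 1) := by
  rw [← mul_assoc, a_pow, mul_assoc, pow_succ']

lemma d_nf (i j : ℕ) : ld * ((la * ld) ^ i * la ^ j) =
    (la * ld) ^ (3 * (i + 1)) * la ^ (j + 1) := by
  rw [← a_nf, pow_succ', mul_assoc, mul_assoc, aa]

lemma lt0_inv : la * (lb * (la * lb)) = (lt 0)⁻¹ := by
  simp only [lt0, mul_inv_rev, la_inv, lb_inv, mul_assoc]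

/-- normal form modulo `L`. -/
lemma form (x : Lam) : ∃ l ∈ LL, ∃ e < 2, ∃ i < 4, ∃ j < 2, x = l * nf e i j := by
  suffices h : ∃ l ∈ LL, ∃ e i j : ℕ, x = l * nf e i j by
    obtain ⟨l, hl, e, i, j, h⟩ := h
    rw [nf_mod] at h
    exact ⟨l, hl, e % 2, Nat.mod_lt _ (by norm_num), i % 4, Nat.mod_lt _ (by norm_num), j % 2,
      Nat.mod_lt _ (by norm_num), h⟩
  have hred : ∀ x : Lam, (∃ l ∈ LL, ∃ e i j : ℕ, x = l * nf e i j) →
      ∃ l ∈ LL, ∃ e < 2, ∃ i j : ℕ, x = l * nf e i j := by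
    rintro x ⟨l, hl, e, i, j, h⟩
    rw [nf_mod] at h
    exact ⟨l, hl, e % 2, Nat.mod_lt _ (by norm_num), i % 4, j % 2, h⟩
  have hg : ∀ (g l y : Lam), g * (l * y) = (g * l * g⁻¹) * (g * y) := by
    intro g l y
    group
  induction x using lam_induction with
  | h1 => exact ⟨1, one_mem _, 0, 0, 0, by simp [nf]⟩
  | ha x ih =>
    obtain ⟨l, hl, e, he, i, j, rfl⟩ := hred x ih
    rw [hg]
    have hl' := conj_a l hl
    interval_cases e
    · exact ⟨_, hl', 0, 3 * i, j + 1, by rw [nf, nf, pow_zero, one_mul, one_mul, a_nf]⟩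
    · refine ⟨_ * (lt 0)⁻¹, mul_mem hl' (inv_mem (lt_mem 0)), 1, 3 * i, j + 1, ?_⟩
      rw [mul_assoc _ (lt 0)⁻¹]
      congr 1
      rw [nf, nf, pow_one, ← a_nf, ← lt0_inv]
      simp only [mul_assoc, aa, bb]
  | hb x ih =>
    obtain ⟨l, hl, e, he, i, j, rfl⟩ := hred x ih
    rw [hg]
    exact ⟨_, conj_b l hl, e + 1, i, j, by
      congr 1
      simp only [nf, pow_succ', mul_assoc]⟩
  | hd x ih =>
    obtain ⟨l, hl, e, he, i, j, rfl⟩ := hred x ih
    rw [hg]
    have hl' := conj_d l hl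
    interval_cases e
    · exact ⟨_, hl', 0, 3 * (i + 1), j + 1, by rw [nf, nf, pow_zero, one_mul, one_mul, d_nf]⟩
    · refine ⟨_, hl', 1, 3 * (i + 1), j + 1, ?_⟩
      rw [nf, nf, pow_one, db, d_nf]

theorem lnorm : LNormS := by
  have hker : LL = th.ker := by
    apply le_antisymm LL_le
    intro x hx
    obtain ⟨l, hl, e, he, i, hi, j, hj, rfl⟩ := form x
    have h1 : th (nf e i j) = 1 := by
      have h2 : th (l * nf e i j) = 1 := hx
      rw [map_mul, show th l = 1 from LL_le hl, one_mul] at h2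
      exact h2
    simp only [nf, map_mul, map_pow, th_la, th_lb, th_ld] at h1
    have h3 : e = 0 ∧ i = 0 ∧ j = 0 := by
      revert h1
      interval_cases e <;> interval_cases i <;> interval_cases j <;> decide
    obtain ⟨rfl, rfl, rfl⟩ := h3
    simpa [nf] using hl
  refine ⟨LL_normal, ?_, ?_⟩
  · rw [hker]
    exact inferInstance
  · intro x
    refine ⟨4, ?_⟩
    rw [hker]
    show th (x ^ (2 ^ 4)) = 1
    rw [map_pow]
    generalize th x = y
    revert y
    decide

/-- the elements of `L` which are first coordinates. -/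
def SS : Subgroup Lam where
  carrier := {x | ∃ y ∈ LL, psi y = ⟨x, 1, false⟩}
  one_mem' := ⟨1, one_mem _, by rw [map_one]; rfl⟩
  mul_mem' := by
    rintro x x' ⟨y, hy, h⟩ ⟨y', hy', h'⟩
    exact ⟨y * y', mul_mem hy hy', by rw [map_mul, h, h']; ext <;> simp⟩
  inv_mem' := by
    rintro x ⟨y, hy, h⟩
    exact ⟨y⁻¹, inv_mem hy, by rw [map_inv, h]; ext <;> simp [Wr.inv_def]⟩

lemma SS_conj (z u v : Lam) (hz : psi z = ⟨u, v, false⟩) (x : Lam) (hx : x ∈ SS) :
    u * x * u⁻¹ ∈ SS := by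
  obtain ⟨y, hy, h⟩ := hx
  refine ⟨z * y * z⁻¹, LL_normal.conj_mem y hy z, ?_⟩
  rw [map_mul, map_mul, map_inv, h, hz]
  ext <;> simp [Wr.inv_def]

lemma lt1_SS : (lt 0)⁻¹ ∈ SS := by
  refine ⟨lt 1, lt_mem 1, ?_⟩
  rw [← lt0_inv, lt1]
  simp only [map_mul, psi_la, psi_lb, psi_ld]
  ext
  · simp [mul_assoc]
  · simp [lc, lbd_lbd]
  · simp

lemma LL_SS : LL ≤ SS := by
  have h0 : lt 0 ∈ SS := by simpa using inv_mem lt1_SS
  have h2 : lt 2 ∈ SS := by
    have h := SS_conj (la * (lb * ld) * la) ld la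
      (by
        rw [← lc, map_mul, map_mul, psi_lc, psi_la]
        ext <;> simp) _ h0
    have e : ld * lt 0 * ld⁻¹ = lt 2 := by
      simp only [lt0, lt2, ld_inv, mul_assoc, db]
    rwa [e] at h
  have h1 : lt 1 ∈ SS := by
    have h := SS_conj lb la lc psi_lb _ h2
    have e : la * lt 2 * la⁻¹ = (lt 0)⁻¹ * lt 1 := by
      simp only [lt0, lt1, lt2, mul_inv_rev, la_inv, lb_inv, mul_assoc, aa, bb]
    rw [e] at h
    simpa using mul_mem h0 h
  rw [LL_closure, Subgroup.closure_le]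
  rintro _ ⟨i, rfl⟩
  fin_cases i
  · exact h0
  · exact h1
  · exact h2

theorem lbr : LBrS := by
  intro x hx
  obtain ⟨y, hy, h⟩ := LL_SS hx
  refine ⟨⟨y, hy, h⟩, la * y * la⁻¹, conj_a y hy, ?_⟩
  rw [map_mul, map_mul, map_inv, h, psi_la]
  ext <;> simp [Wr.inv_def]

end KG.H33
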